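import Pool.Agent.Q297.BCExample

open MeasureTheory ProbabilityTheory Filter Topology
open Q297.RandomSets

namespace Pool.Agent.Results.MP_3b082f_pr.StrongLawFails

/-- **The intermediate form of the strong law fails for random convex sets with a compact common
expectation, even in Hilbert space.**  There are a real Hilbert space `X` (which is B-convex), a
probability space, and a uniformly bounded independent sequence `Ψ` of random sets in `BC(X)`, all
with the same expectation `U`, where `U` is compact, such that for every `ω` the Hausdorff distance
of the Minkowski averages `(1/n) (Ψ 0 ω + ... + Ψ (n-1) ω)` to `U` does not tend to `0`. -/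
theorem result :
    ∃ (X : Type) (_ : NormedAddCommGroup X) (_ : InnerProductSpace ℝ X) (_ : CompleteSpace X),
      BConvex X ∧
      ∃ (Ω : Type) (_ : MeasurableSpace Ω) (μ : Measure Ω) (_ : IsProbabilityMeasure μ)
        (Ψ : ℕ → Ω → BC X) (U : BC X),
        IsCompact (closure U.carrier) ∧
        (∀ n, IsRandomSet (Ψ n)) ∧
        (∀ n, HasExpectation μ (Ψ n) U) ∧
        IndepRandomSets μ Ψ ∧
        UniformlyBounded Ψ ∧
        ∀ ω, ¬ Tendsto (fun n => Metric.hausdorffDist (average Ψ n ω) U.carrier) atTop (𝓝 0) := by
  refine ⟨H, inferInstance, inferInstance, inferInstance, hilbert_bconvex _, Om, inferInstance,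
    P, inferInstance, Psi, Ubc, ?_, fun n => Phi_random _, fun n => Phi_expectation _, Psi_indep,
    Psi_bounded, ?_⟩
  · have h : IsCompact Ubc.carrier := U_good.mink_compact
    rw [h.isClosed.closure_eq]
    exact h
  · intro ω hT
    have hsub : Tendsto (fun b : ℕ => 2 ^ (b + 1) - 1) atTop atTop := by
      apply tendsto_atTop_mono (f := fun b : ℕ => b) _ tendsto_id
      intro b
      have : b + 1 < 2 ^ (b + 1) := Nat.lt_two_pow_self
      omega
    have h1 := hT.comp hsub
    have h2 := ge_of_tendsto' h1 (fun b => deviation ω b)
    norm_num at h2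

end Pool.Agent.Results.MP_3b082f_pr.StrongLawFails
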